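import Pool.Agent.H19.GrC

/-! The product of a Grothendieck space and a compact space is Grothendieck. -/

namespace Pool.Agent.Results.MP_8a2df8_gt.Compact

open Pool.Agent.H19.Gr

universe u v

theorem result (X : Type u) (K : Type v) [TopologicalSpace X] [T35Space X] [TopologicalSpace K]
    [CompactSpace K] [T2Space K] (hX : Grothendieck X) : Grothendieck (X × K) := groth_prod hX

end Pool.Agent.Results.MP_8a2df8_gt.Compact
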